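import Pool.Agent.TwoSum25.Glue
import Pool.Agent.EX18.QDefs

/-!
`tconn_twoSum`: if `TConn` holds for `M₁` and `M₂`, then it holds for their 2-sum.
-/

set_option autoImplicit false

namespace Pool.Agent.TwoSum25

open Finset Pool.Agent.WD Pool.Agent.EX18 Pool.Agent.EX91
open scoped Matroid

/-- `M` is the 2-sum of `M₁` and `M₂` with basepoint `p`, in terms of the traces of the bases. -/
def IsGlued {α : Type*} (M M₁ M₂ : Matroid α) (p : α) : Prop :=
  M₁.E ∩ M₂.E = {p} ∧ M.E = (M₁.E ∪ M₂.E) \ {p} ∧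
    ∀ B ⊆ M.E, M.IsBase B ↔
      ((M₁.IsBase (B ∩ M₁.E) ∧ M₂.IsBase (insert p (B ∩ M₂.E))) ∨
        (M₁.IsBase (insert p (B ∩ M₁.E)) ∧ M₂.IsBase (B ∩ M₂.E)))

variable {α : Type*} {M M₁ M₂ : Matroid α} {p : α}

theorem IsGlued.finite [M₁.Finite] [M₂.Finite] (h : IsGlued M M₁ M₂ p) : M.Finite :=
  ⟨by
    rw [h.2.1]
    exact (M₁.ground_finite.union M₂.ground_finite).subset Set.sdiff_subset⟩

theorem IsGlued.glue [DecidableEq α] (h : IsGlued M M₁ M₂ p) (X Y : Finset α)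
    (hX : M₁.IsBase (X : Set α)) (hY : M₂.IsBase (Y : Set α)) (hp : p ∈ X ↔ p ∉ Y) :
    M.IsBase (((X ∪ Y).erase p : Finset α) : Set α) := by
  obtain ⟨h1, h2, h3⟩ := h
  have hXE : (X : Set α) ⊆ M₁.E := hX.subset_ground
  have hYE : (Y : Set α) ⊆ M₂.E := hY.subset_ground
  have hp2 : ∀ z, z ∈ M₁.E → z ∈ M₂.E → z = p := by
    intro z hz hz'
    have : z ∈ M₁.E ∩ M₂.E := ⟨hz, hz'⟩
    rw [h1] at this
    exact this
  have hsub : (((X ∪ Y).erase p : Finset α) : Set α) ⊆ M.E := by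
    intro z hz
    rw [mem_coe, mem_erase, mem_union] at hz
    rw [h2]
    exact ⟨hz.2.imp (fun h => hXE (mem_coe.2 h)) (fun h => hYE (mem_coe.2 h)), hz.1⟩
  have e1 : (((X ∪ Y).erase p : Finset α) : Set α) ∩ M₁.E = (X : Set α) \ {p} := by
    ext z
    simp only [Set.mem_inter_iff, mem_coe, mem_erase, mem_union, Set.mem_sdiff,
      Set.mem_singleton_iff]
    constructor
    · rintro ⟨⟨hz, hz'⟩, hzE⟩
      rcases hz' with hz' | hz'
      · exact ⟨hz', hz⟩
      · exact absurd (hp2 z hzE (hYE (mem_coe.2 hz'))) hz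
    · rintro ⟨hz, hz'⟩
      exact ⟨⟨hz', Or.inl hz⟩, hXE (mem_coe.2 hz)⟩
  have e2 : (((X ∪ Y).erase p : Finset α) : Set α) ∩ M₂.E = (Y : Set α) \ {p} := by
    ext z
    simp only [Set.mem_inter_iff, mem_coe, mem_erase, mem_union, Set.mem_sdiff,
      Set.mem_singleton_iff]
    constructor
    · rintro ⟨⟨hz, hz'⟩, hzE⟩
      rcases hz' with hz' | hz'
      · exact absurd (hp2 z (hXE (mem_coe.2 hz')) hzE) hz
      · exact ⟨hz', hz⟩
    · rintro ⟨hz, hz'⟩
      exact ⟨⟨hz', Or.inr hz⟩, hYE (mem_coe.2 hz)⟩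
  rw [h3 _ hsub, e1, e2]
  by_cases hpX : p ∈ X
  · right
    have hpY : p ∉ Y := hp.1 hpX
    rw [Set.insert_sdiff_singleton, Set.insert_eq_of_mem (mem_coe.2 hpX),
      Set.sdiff_singleton_eq_self (fun h => hpY (mem_coe.1 h))]
    exact ⟨hX, hY⟩
  · left
    have hpY : p ∈ Y := by
      by_contra h
      exact hpX (hp.2 h)
    rw [Set.insert_sdiff_singleton, Set.insert_eq_of_mem (mem_coe.2 hpY),
      Set.sdiff_singleton_eq_self (fun h => hpX (mem_coe.1 h))]
    exact ⟨hX, hY⟩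

/-- Every base of a 2-sum is glued from bases of the two parts. -/
theorem IsGlued.unglue [DecidableEq α] (h : IsGlued M M₁ M₂ p) (T : Finset α)
    (hT : M.IsBase (T : Set α)) : ∃ X Y : Finset α, M₁.IsBase (X : Set α) ∧ M₂.IsBase (Y : Set α) ∧
      (p ∈ X ↔ p ∉ Y) ∧ (X ∪ Y).erase p = T ∧ (∀ z, z ∈ X.erase p ↔ z ∈ T ∧ z ∈ M₁.E) ∧
      (∀ z, z ∈ Y.erase p ↔ z ∈ T ∧ z ∉ M₁.E) := by
  classical
  obtain ⟨h1, h2, h3⟩ := h
  have hTE : (T : Set α) ⊆ M.E := hT.subset_ground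
  have hp2 : ∀ z, z ∈ M₁.E → z ∈ M₂.E → z = p := by
    intro z hz hz'
    have : z ∈ M₁.E ∩ M₂.E := ⟨hz, hz'⟩
    rw [h1] at this
    exact this
  have hpT : p ∉ T := by
    intro hp
    have := hTE (mem_coe.2 hp)
    rw [h2] at this
    exact this.2 rfl
  set X : Finset α := T.filter (fun z => z ∈ M₁.E) with hXdef
  set Y : Finset α := T.filter (fun z => z ∉ M₁.E) with hYdef
  have mX : ∀ z, z ∈ X ↔ z ∈ T ∧ z ∈ M₁.E := fun z => by rw [hXdef, mem_filter]
  have mY : ∀ z, z ∈ Y ↔ z ∈ T ∧ z ∉ M₁.E := fun z => by rw [hYdef, mem_filter]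
  have e1 : (T : Set α) ∩ M₁.E = (X : Set α) := by
    ext z
    rw [Set.mem_inter_iff, mem_coe, mem_coe, mX]
  have e2 : (T : Set α) ∩ M₂.E = (Y : Set α) := by
    ext z
    rw [Set.mem_inter_iff, mem_coe, mem_coe, mY]
    constructor
    · rintro ⟨hz, hz'⟩
      exact ⟨hz, fun hz2 => hpT (hp2 z hz2 hz' ▸ hz)⟩
    · rintro ⟨hz, hz'⟩
      have hzE := hTE (mem_coe.2 hz)
      rw [h2] at hzE
      exact ⟨hz, hzE.1.resolve_left hz'⟩
  have hpX : p ∉ X := fun hp => hpT ((mX p).1 hp).1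
  have hpY : p ∉ Y := fun hp => hpT ((mY p).1 hp).1
  have hun : X ∪ Y = T := filter_union_filter_not_eq _ _
  have h4 := (h3 _ hTE).1 hT
  rw [e1, e2] at h4
  rcases h4 with ⟨hX, hY⟩ | ⟨hX, hY⟩
  · refine ⟨X, insert p Y, hX, by rw [coe_insert]; exact hY, ?_, ?_, ?_, ?_⟩
    · exact ⟨fun h => absurd h hpX, fun h => absurd (mem_insert_self _ _) h⟩
    · rw [union_insert, hun, erase_insert hpT]
    · intro z
      rw [erase_eq_of_notMem hpX, mX]
    · intro z
      rw [erase_insert hpY, mY]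
  · refine ⟨insert p X, Y, by rw [coe_insert]; exact hX, hY, ?_, ?_, ?_, ?_⟩
    · exact ⟨fun _ => hpY, fun _ => mem_insert_self _ _⟩
    · rw [insert_union, hun, erase_insert hpT]
    · intro z
      rw [erase_insert hpX, mX]
    · intro z
      rw [erase_eq_of_notMem hpY, mY]

theorem base_card {N : Matroid α} {P : Fin 3 → Finset α} {P' : Fin 3 → Finset α}
    (hP : ∀ k, N.IsBase (P k : Set α)) (hP' : ∀ k, N.IsBase (P' k : Set α)) :
    (∀ k, (P k).card = (P 0).card) ∧ ∀ k, (P' k).card = (P 0).card := by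
  have key : ∀ S T : Finset α, N.IsBase (S : Set α) → N.IsBase (T : Set α) → S.card = T.card := by
    intro S T hS hT
    have h := hS.encard_eq_encard_of_isBase hT
    rw [Set.encard_coe_eq_coe_finsetCard, Set.encard_coe_eq_coe_finsetCard] at h
    exact_mod_cast h
  exact ⟨fun k => key _ _ (hP k) (hP 0), fun k => key _ _ (hP' k) (hP 0)⟩

theorem tconn_glued [DecidableEq α] (h : IsGlued M M₁ M₂ p) (h1 : TConn M₁) (h2 : TConn M₂) :
    TConn M := by
  classical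
  intro B D hB hD hBD
  have hb := fun k => h.unglue (B k) (hB k)
  have hd := fun k => h.unglue (D k) (hD k)
  choose P Q hP hQ hc hg hPz hQz using hb
  choose P' Q' hP' hQ' hc' hg' hPz' hQz' using hd
  have hBg : Glue p P Q = B := funext hg
  have hDg : Glue p P' Q' = D := funext hg'
  have sub : ∀ {R R' : Fin 3 → Finset α} {r : α → Prop}, (∀ k z, z ∈ (R k).erase p ↔ z ∈ B k ∧ r z) →
      (∀ k z, z ∈ (R' k).erase p ↔ z ∈ D k ∧ r z) →
      SameContent (fun k => (R k).erase p) (fun k => (R' k).erase p) := by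
    intro R R' r hR hR' z
    simp only [hR, hR']
    by_cases hz : r z
    · simp only [hz, and_true]
      exact hBD z
    · simp only [hz, and_false, filter_false]
  have s1 : SameContent P P' :=
    sameContent_of_card (p := p) (base_card hP hP').1 (base_card hP hP').2
      (sub (r := fun z => z ∈ M₁.E) hPz hPz')
  have s2 : SameContent Q Q' :=
    sameContent_of_card (p := p) (base_card hQ hQ').1 (base_card hQ hQ').2
      (sub (r := fun z => z ∉ M₁.E) hQz hQz')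
  have hp2 : ∀ z, z ∈ M₁.E → z ∈ M₂.E → z = p := by
    intro z hz hz'
    have : z ∈ M₁.E ∩ M₂.E := ⟨hz, hz'⟩
    rw [h.1] at this
    exact this
  have key := glue_conn (b := fun T : Finset α => M.IsBase (T : Set α))
    (b1 := fun T : Finset α => M₁.IsBase (T : Set α))
    (b2 := fun T : Finset α => M₂.IsBase (T : Set α)) (p := p) (S := M₁.E)
    (fun X Y hX hY hXY => h.glue X Y hX hY hXY)
    (fun X hX z hz _ => hX.subset_ground (mem_coe.2 hz))
    (fun Y hY z hz hzp hzE => hzp (hp2 z hzE (hY.subset_ground (mem_coe.2 hz))))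
    h1 h2 hP hP' hQ hQ' hc hc' s1 s2
  rw [hBg, hDg] at key
  exact key

theorem isGlued_of_isTwoSum (h : IsTwoSum M M₁ M₂ p) : IsGlued M M₁ M₂ p := by
  obtain ⟨hp1, hp2, h12, hE, hB⟩ := h
  have hpp : ∀ z, z ∈ M₁.E → z ∈ M₂.E → z = p := fun z hz hz' => h12 ⟨hz, hz'⟩
  have hpE : p ∉ M.E := by
    intro hp
    rw [hE] at hp
    exact hp.2 rfl
  refine ⟨Set.Subset.antisymm h12 (Set.singleton_subset_iff.2 ⟨hp1, hp2⟩), hE, fun B hBE => ?_⟩
  rw [hB]
  constructor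
  · rintro ⟨B₁, B₂, h1, h2, h3, rfl⟩
    have e1 : ((B₁ ∪ B₂) \ {p}) ∩ M₁.E = B₁ \ {p} := by
      ext z
      constructor
      · rintro ⟨⟨hz | hz, hzp⟩, hzE⟩
        · exact ⟨hz, hzp⟩
        · exact absurd (hpp z hzE (h2.subset_ground hz)) hzp
      · rintro ⟨hz, hzp⟩
        exact ⟨⟨Or.inl hz, hzp⟩, h1.subset_ground hz⟩
    have e2 : ((B₁ ∪ B₂) \ {p}) ∩ M₂.E = B₂ \ {p} := by
      ext z
      constructor
      · rintro ⟨⟨hz | hz, hzp⟩, hzE⟩
        · exact absurd (hpp z (h1.subset_ground hz) hzE) hzp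
        · exact ⟨hz, hzp⟩
      · rintro ⟨hz, hzp⟩
        exact ⟨⟨Or.inr hz, hzp⟩, h2.subset_ground hz⟩
    rw [e1, e2]
    rcases h3 with ⟨h3, h4⟩ | ⟨h3, h4⟩
    · right
      rw [Set.insert_sdiff_singleton, Set.insert_eq_of_mem h3, Set.sdiff_singleton_eq_self h4]
      exact ⟨h1, h2⟩
    · left
      rw [Set.insert_sdiff_singleton, Set.insert_eq_of_mem h4, Set.sdiff_singleton_eq_self h3]
      exact ⟨h1, h2⟩
  · have hpB : p ∉ B := fun hp => hpE (hBE hp)
    have hBu : B ⊆ M₁.E ∪ M₂.E := fun z hz => by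
      have := hBE hz
      rw [hE] at this
      exact this.1
    have hzp : ∀ z ∈ B, z ≠ p := fun z hz h => hpB (h ▸ hz)
    rintro (⟨h1, h2⟩ | ⟨h1, h2⟩)
    · refine ⟨_, _, h1, h2, Or.inr ⟨fun h => hpB h.1, Set.mem_insert _ _⟩, ?_⟩
      ext z
      constructor
      · intro hz
        exact ⟨(hBu hz).imp (fun h => ⟨hz, h⟩) (fun h => Set.mem_insert_of_mem _ ⟨hz, h⟩), hzp z hz⟩
      · rintro ⟨hz | hz | hz, hzp'⟩
        · exact hz.1
        · exact absurd hz hzp'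
        · exact hz.1
    · refine ⟨_, _, h1, h2, Or.inl ⟨Set.mem_insert _ _, fun h => hpB h.1⟩, ?_⟩
      ext z
      constructor
      · intro hz
        exact ⟨(hBu hz).imp (fun h => Set.mem_insert_of_mem _ ⟨hz, h⟩) (fun h => ⟨hz, h⟩), hzp z hz⟩
      · rintro ⟨(hz | hz) | hz, hzp'⟩
        · exact absurd hz hzp'
        · exact hz.1
        · exact hz.1

/-- Connectivity of triples of bases is inherited by 2-sums. -/
theorem tconn_twoSum [DecidableEq α] (h : IsTwoSum M M₁ M₂ p) (h1 : TConn M₁) (h2 : TConn M₂) :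
    TConn M :=
  tconn_glued (isGlued_of_isTwoSum h) h1 h2

end Pool.Agent.TwoSum25
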