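import Pool.Agent.EX18.Sum

/-!
Triples of bases of a 2-sum.
-/

set_option autoImplicit false

namespace Pool.Agent.TwoSum25

open Finset Pool.Agent.WD Pool.Agent.EX18 Pool.Agent.EX91
open scoped Matroid

section

variable {α : Type*} [DecidableEq α]

/-- Gluing two triples of sets along the basepoint `p`. -/
def Glue (p : α) (P Q : Fin 3 → Finset α) : Fin 3 → Finset α := fun k => (P k ∪ Q k).erase p

/-- The basepoint `p` lies in exactly one of `P k` and `Q k`. -/
def Compat (p : α) (P Q : Fin 3 → Finset α) : Prop := ∀ k, p ∈ P k ↔ p ∉ Q k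

theorem Glue.comm (p : α) (P Q : Fin 3 → Finset α) : Glue p P Q = Glue p Q P :=
  funext fun k => by
    unfold Glue
    rw [union_comm]

theorem Compat.symm {p : α} {P Q : Fin 3 → Finset α} (h : Compat p P Q) : Compat p Q P :=
  fun k => by
    rw [h k, not_not]

/-- Combinatorics of subsets of the three slots: matching. -/
theorem comb_match : ∀ U U' : Finset (Fin 3), ∀ i j : Fin 3, U.card = U'.card → (i ∈ U ↔ j ∈ U') →
    ∃ τ : Equiv.Perm (Fin 3), τ j = i ∧ ∀ k, (k ∈ U' ↔ τ k ∈ U) := by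
  decide

/-- Combinatorics of subsets of the three slots: permutations preserving a subset. -/
theorem comb_perm : ∀ T : Finset (Fin 3), ∀ τ : Equiv.Perm (Fin 3), (∀ k, (τ k ∈ T ↔ k ∈ T)) →
    ∃ ρ : Equiv.Perm (Fin 3), (∀ k, (ρ k ∈ T ↔ k ∈ T)) ∧ (∃ k, ρ k = k) ∧ (∃ k, τ k = ρ k) := by
  decide

/-- The content of a glued triple. -/
theorem sameContent_glue {p : α} {S : Set α} {P P' Q Q' : Fin 3 → Finset α}
    (h1 : ∀ k, ∀ z ∈ P k, z ≠ p → z ∈ S) (h1' : ∀ k, ∀ z ∈ P' k, z ≠ p → z ∈ S)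
    (h2 : ∀ k, ∀ z ∈ Q k, z ≠ p → z ∉ S) (h2' : ∀ k, ∀ z ∈ Q' k, z ≠ p → z ∉ S)
    (hP : SameContent P P') (hQ : SameContent Q Q') :
    SameContent (Glue p P Q) (Glue p P' Q') := by
  classical
  have key : ∀ P Q : Fin 3 → Finset α, (∀ k, ∀ z ∈ P k, z ≠ p → z ∈ S) →
      (∀ k, ∀ z ∈ Q k, z ≠ p → z ∉ S) → ∀ z, (univ.filter (fun k => z ∈ Glue p P Q k)).card =
        if z = p then 0 else if z ∈ S then (univ.filter (fun k => z ∈ P k)).card else
          (univ.filter (fun k => z ∈ Q k)).card := by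
    intro P Q h1 h2 z
    by_cases hz : z = p
    · rw [if_pos hz, card_eq_zero, filter_eq_empty_iff]
      intro k _ hk
      unfold Glue at hk
      exact (mem_erase.1 hk).1 hz
    · rw [if_neg hz]
      by_cases hS : z ∈ S
      · rw [if_pos hS]
        congr 1
        refine filter_congr fun k _ => ?_
        unfold Glue
        rw [mem_erase, mem_union]
        constructor
        · rintro ⟨-, h | h⟩
          · exact h
          · exact absurd hS (h2 k z h hz)
        · exact fun h => ⟨hz, Or.inl h⟩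
      · rw [if_neg hS]
        congr 1
        refine filter_congr fun k _ => ?_
        unfold Glue
        rw [mem_erase, mem_union]
        constructor
        · rintro ⟨-, h | h⟩
          · exact absurd (h1 k z h hz) hS
          · exact h
        · exact fun h => ⟨hz, Or.inr h⟩
  intro z
  rw [key P Q h1 h2 z, key P' Q' h1' h2' z, hP z, hQ z]

/-- A step on the first side. -/
theorem glue_step {b b1 b2 : Finset α → Prop} {p : α} {S : Set α}
    (h : ∀ X Y, b1 X → b2 Y → (p ∈ X ↔ p ∉ Y) → b ((X ∪ Y).erase p))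
    (h1 : ∀ X, b1 X → ∀ z ∈ X, z ≠ p → z ∈ S) (h2 : ∀ Y, b2 Y → ∀ z ∈ Y, z ≠ p → z ∉ S)
    {P P' Q : Fin 3 → Finset α} (hs : ShareStep b1 P P') (hQ : ∀ k, b2 (Q k))
    (hc : Compat p P Q) : ∃ τ : Equiv.Perm (Fin 3), Compat p P' (fun k => Q (τ k)) ∧
      ShareStep b (Glue p P Q) (Glue p P' (fun k => Q (τ k))) := by
  obtain ⟨hP, hP', hcont, i, j, hij⟩ := hs
  obtain ⟨τ, h3, h4⟩ := comb_match (univ.filter (fun k => p ∈ P k)) (univ.filter (fun k => p ∈ P' k))
    i j (hcont p) (by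
      simp only [mem_filter, mem_univ, true_and]
      rw [hij])
  simp only [mem_filter, mem_univ, true_and] at h4
  have hc' : Compat p P' (fun k => Q (τ k)) := fun k => by
    rw [h4 k, hc (τ k)]
  refine ⟨τ, hc', fun k => h _ _ (hP k) (hQ k) (hc k), fun k => h _ _ (hP' k) (hQ _) (hc' k), ?_, i, j,
    ?_⟩
  · exact sameContent_glue (S := S) (fun k => h1 _ (hP k)) (fun k => h1 _ (hP' k))
      (fun k => h2 _ (hQ k)) (fun k => h2 _ (hQ _)) hcont
      (fun z => (sameContent_perm Q τ z).symm)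
  · show (P i ∪ Q i).erase p = (P' j ∪ Q (τ j)).erase p
    rw [h3, hij]

/-- A path on the first side. -/
theorem glue_path {b b1 b2 : Finset α → Prop} {p : α} {S : Set α}
    (h : ∀ X Y, b1 X → b2 Y → (p ∈ X ↔ p ∉ Y) → b ((X ∪ Y).erase p))
    (h1 : ∀ X, b1 X → ∀ z ∈ X, z ≠ p → z ∈ S) (h2 : ∀ Y, b2 Y → ∀ z ∈ Y, z ≠ p → z ∉ S)
    {P P' Q : Fin 3 → Finset α} (hs : Relation.ReflTransGen (ShareStep b1) P P')
    (hQ : ∀ k, b2 (Q k)) (hc : Compat p P Q) :
    ∃ τ : Equiv.Perm (Fin 3), Compat p P' (fun k => Q (τ k)) ∧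
      Relation.ReflTransGen (ShareStep b) (Glue p P Q) (Glue p P' (fun k => Q (τ k))) := by
  induction hs with
  | refl => exact ⟨Equiv.refl _, hc, Relation.ReflTransGen.refl⟩
  | tail _ hst ih =>
    obtain ⟨τ, h3, h4⟩ := ih
    obtain ⟨ρ, h5, h6⟩ := glue_step h h1 h2 hst (fun k => hQ (τ k)) h3
    exact ⟨ρ.trans τ, h5, h4.tail h6⟩

/-- Reglueing. -/
theorem glue_perm {b b1 b2 : Finset α → Prop} {p : α} {S : Set α}
    (h : ∀ X Y, b1 X → b2 Y → (p ∈ X ↔ p ∉ Y) → b ((X ∪ Y).erase p))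
    (h1 : ∀ X, b1 X → ∀ z ∈ X, z ≠ p → z ∈ S) (h2 : ∀ Y, b2 Y → ∀ z ∈ Y, z ≠ p → z ∉ S)
    {P Q : Fin 3 → Finset α} (hP : ∀ k, b1 (P k)) (hQ : ∀ k, b2 (Q k)) (hc : Compat p P Q)
    (τ : Equiv.Perm (Fin 3)) (hτ : Compat p P (fun k => Q (τ k))) :
    Relation.ReflTransGen (ShareStep b) (Glue p P (fun k => Q (τ k))) (Glue p P Q) := by
  obtain ⟨ρ, h3, ⟨i, h4⟩, j, h5⟩ := comb_perm (univ.filter (fun k => p ∈ Q k)) τ (by
    intro k
    simp only [mem_filter, mem_univ, true_and]
    rw [← not_iff_not, ← hτ k, hc k])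
  simp only [mem_filter, mem_univ, true_and] at h3
  have hρ : Compat p P (fun k => Q (ρ k)) := fun k => by
    rw [hc k, h3 k]
  have s1 : ShareStep b (Glue p P (fun k => Q (τ k))) (Glue p P (fun k => Q (ρ k))) := by
    refine ⟨fun k => h _ _ (hP k) (hQ _) (hτ k), fun k => h _ _ (hP k) (hQ _) (hρ k), ?_, j, j, ?_⟩
    · exact sameContent_glue (S := S) (fun k => h1 _ (hP k)) (fun k => h1 _ (hP k))
        (fun k => h2 _ (hQ _)) (fun k => h2 _ (hQ _)) (fun _ => rfl)
        (fun z => (sameContent_perm Q τ z).trans (sameContent_perm Q ρ z).symm)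
    · show (P j ∪ Q (τ j)).erase p = (P j ∪ Q (ρ j)).erase p
      rw [h5]
  have s2 : ShareStep b (Glue p P (fun k => Q (ρ k))) (Glue p P Q) := by
    refine ⟨fun k => h _ _ (hP k) (hQ _) (hρ k), fun k => h _ _ (hP k) (hQ _) (hc k), ?_, i, i, ?_⟩
    · exact sameContent_glue (S := S) (fun k => h1 _ (hP k)) (fun k => h1 _ (hP k))
        (fun k => h2 _ (hQ _)) (fun k => h2 _ (hQ _)) (fun _ => rfl)
        (sameContent_perm Q ρ)
    · show (P i ∪ Q (ρ i)).erase p = (P i ∪ Q i).erase p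
      rw [h4]
  exact (Relation.ReflTransGen.single s1).tail s2

/-- Connectivity of glued triples. -/
theorem glue_conn {b b1 b2 : Finset α → Prop} {p : α} {S : Set α}
    (h : ∀ X Y, b1 X → b2 Y → (p ∈ X ↔ p ∉ Y) → b ((X ∪ Y).erase p))
    (h1 : ∀ X, b1 X → ∀ z ∈ X, z ≠ p → z ∈ S) (h2 : ∀ Y, b2 Y → ∀ z ∈ Y, z ≠ p → z ∉ S)
    (c1 : ∀ P P' : Fin 3 → Finset α, (∀ k, b1 (P k)) → (∀ k, b1 (P' k)) → SameContent P P' →
      Relation.ReflTransGen (ShareStep b1) P P')
    (c2 : ∀ Q Q' : Fin 3 → Finset α, (∀ k, b2 (Q k)) → (∀ k, b2 (Q' k)) → SameContent Q Q' →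
      Relation.ReflTransGen (ShareStep b2) Q Q')
    {P P' Q Q' : Fin 3 → Finset α} (hP : ∀ k, b1 (P k)) (hP' : ∀ k, b1 (P' k))
    (hQ : ∀ k, b2 (Q k)) (hQ' : ∀ k, b2 (Q' k)) (hc : Compat p P Q) (hc' : Compat p P' Q')
    (h3 : SameContent P P') (h4 : SameContent Q Q') :
    Relation.ReflTransGen (ShareStep b) (Glue p P Q) (Glue p P' Q') := by
  obtain ⟨τ, k1, k2⟩ := glue_path h h1 h2 (c1 P P' hP hP' h3) hQ hc
  have h4' : SameContent (fun k => Q (τ k)) Q' := fun z => (sameContent_perm Q τ z).trans (h4 z)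
  obtain ⟨ρ, k3, k4⟩ := glue_path (b := b) (b1 := b2) (b2 := b1) (p := p) (S := Sᶜ)
    (fun Y X hY hX hp => by
      rw [union_comm]
      exact h X Y hX hY (by rw [hp, not_not]))
    (fun Y hY z hz hzp => h2 Y hY z hz hzp) (fun X hX z hz hzp hn => hn (h1 X hX z hz hzp))
    (c2 _ Q' (fun k => hQ (τ k)) hQ' h4') hP' k1.symm
  have k5 := glue_perm (b := b) (b1 := b2) (b2 := b1) (p := p) (S := Sᶜ)
    (fun Y X hY hX hp => by
      rw [union_comm]
      exact h X Y hX hY (by rw [hp, not_not]))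
    (fun Y hY z hz hzp => h2 Y hY z hz hzp) (fun X hX z hz hzp hn => hn (h1 X hX z hz hzp))
    hQ' hP' hc'.symm ρ k3
  rw [Glue.comm p (fun k => Q (τ k)) P'] at k4
  rw [Glue.comm p Q' P'] at k5
  exact k2.trans (k4.trans k5)

/-- The sum of the cardinalities is determined by the content. -/
theorem sum_card_eq {X X' : Fin 3 → Finset α} (h : SameContent X X') :
    ∑ k, (X k).card = ∑ k, (X' k).card := by
  have key : ∀ (X : Fin 3 → Finset α) (W : Finset α), (∀ k, X k ⊆ W) →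
      ∑ k, (X k).card = ∑ z ∈ W, (univ.filter (fun k => z ∈ X k)).card := by
    intro X W hX
    have e1 : ∀ k, (X k).card = ∑ z ∈ W, if z ∈ X k then 1 else 0 := by
      intro k
      rw [sum_boole, Nat.cast_id, filter_mem_eq_inter, inter_eq_right.2 (hX k)]
    have e2 : ∀ z, (univ.filter (fun k => z ∈ X k)).card = ∑ k, if z ∈ X k then 1 else 0 := by
      intro z
      rw [sum_boole, Nat.cast_id]
    rw [sum_congr rfl (fun k _ => e1 k), sum_comm, sum_congr rfl (fun z _ => (e2 z).symm)]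
  rw [key X (univ.biUnion X ∪ univ.biUnion X') (fun k z hz =>
      mem_union_left _ (mem_biUnion.2 ⟨k, mem_univ _, hz⟩)),
    key X' (univ.biUnion X ∪ univ.biUnion X') (fun k z hz =>
      mem_union_right _ (mem_biUnion.2 ⟨k, mem_univ _, hz⟩))]
  exact sum_congr rfl fun z _ => h z

/-- Two triples of sets of constant size with the same content outside `p` have the same content. -/
theorem sameContent_of_card {p : α} {c : ℕ} {P P' : Fin 3 → Finset α} (hP : ∀ k, (P k).card = c)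
    (hP' : ∀ k, (P' k).card = c)
    (h : SameContent (fun k => (P k).erase p) (fun k => (P' k).erase p)) : SameContent P P' := by
  have key : ∀ P : Fin 3 → Finset α, ∑ k, (P k).card = ∑ k, ((P k).erase p).card +
      (univ.filter (fun k => p ∈ P k)).card := by
    intro P
    have e : (univ.filter (fun k => p ∈ P k)).card = ∑ k, if p ∈ P k then 1 else 0 := by
      rw [sum_boole, Nat.cast_id]
    rw [e, ← sum_add_distrib]
    refine sum_congr rfl fun k _ => ?_
    by_cases hk : p ∈ P k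
    · rw [if_pos hk, card_erase_add_one hk]
    · rw [if_neg hk, erase_eq_of_notMem hk, add_zero]
  intro z
  by_cases hz : z = p
  · subst hz
    have h1 := key P
    have h2 := key P'
    have h3 := sum_card_eq h
    have h4 : ∑ k, (P k).card = ∑ k, (P' k).card :=
      sum_congr rfl fun k _ => (hP k).trans (hP' k).symm
    omega
  · have h1 := h z
    have e : ∀ P : Fin 3 → Finset α, univ.filter (fun k => z ∈ (P k).erase p) =
        univ.filter (fun k => z ∈ P k) := by
      intro P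
      refine filter_congr fun k _ => ?_
      rw [mem_erase]
      exact and_iff_right hz
    rw [e, e] at h1
    exact h1

end

end Pool.Agent.TwoSum25
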